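import Mathlib
import Pool.Agent.Results.MP_a176d3_co.NotRealizable

/-!
# Realizations of the tree hypergraphs by boxes: definitions, a criterion, the line
-/

set_option autoImplicit false

namespace Pool.Agent.Y668.TH

open Pool.Agent.Results.MP_a176d3_co.NotRealizable

/-- the hypergraph of the traces on the point set `P` of the members of `𝒮` -/
def traces {d : ℕ} (P : Set (Fin d → ℝ)) (𝒮 : Set (Set (Fin d → ℝ))) : Set (Set P) :=
  {e | ∃ S ∈ 𝒮, e = {p : P | (p : Fin d → ℝ) ∈ S}}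

/-- an (open) axis-parallel box in `ℝ^d` -/
def IsBox {d : ℕ} (S : Set (Fin d → ℝ)) : Prop :=
  ∃ a b : Fin d → ℝ, (∀ i, a i < b i) ∧ S = {x | ∀ i, a i < x i ∧ x i < b i}

/-- `H_k` has a realization by axis-parallel boxes in `ℝ^d` -/
def Realizable (d k : ℕ) : Prop :=
  ∃ (P : Set (Fin d → ℝ)) (𝒮 : Set (Set (Fin d → ℝ))),
    (∀ S ∈ 𝒮, IsBox S) ∧ HypergraphIso (treeEdges k) (traces P 𝒮)

theorem edge_nonempty {k : ℕ} (e : Set (TreeVertex k)) (he : e ∈ treeEdges k) : e.Nonempty := by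
  rcases he with ⟨v, hv, rfl⟩ | ⟨v, hv, rfl⟩
  · have hk : 0 < k := by omega
    exact ⟨⟨v.1 ++ [⟨0, hk⟩], by simp; omega⟩, ⟨⟨0, hk⟩, rfl⟩⟩
  · exact ⟨v, List.prefix_refl _⟩

theorem fin_vertices (k : ℕ) : Finite (TreeVertex k) :=
  (List.finite_length_lt (Fin k) k).to_subtype

/-- a box with the trace `e` -/
theorem box_of {d k : ℕ} (F : TreeVertex k → Fin d → ℤ) (e : Set (TreeVertex k))
    (hne : e.Nonempty)
    (hsep : ∀ z ∉ e, ∃ c : Fin d, (∀ a ∈ e, F z c < F a c) ∨ (∀ a ∈ e, F a c < F z c)) :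
    ∃ S : Set (Fin d → ℝ), IsBox S ∧ ∀ v, v ∈ e ↔ (fun c => (F v c : ℝ)) ∈ S := by
  have := fin_vertices k
  have hfin : e.Finite := Set.toFinite e
  have hmin : ∀ c : Fin d, ∃ a ∈ e, ∀ b ∈ e, F a c ≤ F b c := fun c =>
    Set.exists_min_image e (fun a => F a c) hfin hne
  have hmax : ∀ c : Fin d, ∃ a ∈ e, ∀ b ∈ e, F b c ≤ F a c := fun c =>
    Set.exists_max_image e (fun a => F a c) hfin hne
  choose lo hlo1 hlo2 using hmin
  choose hi hhi1 hhi2 using hmax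
  refine ⟨{x | ∀ c, ((F (lo c) c : ℝ) - 1 / 2) < x c ∧ x c < (F (hi c) c : ℝ) + 1 / 2},
    ⟨fun c => (F (lo c) c : ℝ) - 1 / 2, fun c => (F (hi c) c : ℝ) + 1 / 2, fun c => ?_, rfl⟩,
    fun v => ⟨fun hv c => ?_, fun hv => ?_⟩⟩
  · have h1 : (F (lo c) c : ℝ) ≤ F (hi c) c := by exact_mod_cast hlo2 c _ (hhi1 c)
    show (F (lo c) c : ℝ) - 1 / 2 < (F (hi c) c : ℝ) + 1 / 2
    linarith
  · have h1 : (F (lo c) c : ℝ) ≤ F v c := by exact_mod_cast hlo2 c v hv
    have h2 : (F v c : ℝ) ≤ F (hi c) c := by exact_mod_cast hhi2 c v hv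
    exact ⟨by linarith, by linarith⟩
  · by_contra hz
    obtain ⟨c, h | h⟩ := hsep v hz
    · have h1 := h _ (hlo1 c)
      have h2 : (F v c : ℝ) + 1 ≤ F (lo c) c := by exact_mod_cast h1
      have h3 := (hv c).1
      simp only at h3
      linarith
    · have h1 := h _ (hhi1 c)
      have h2 : (F (hi c) c : ℝ) + 1 ≤ F v c := by exact_mod_cast h1
      have h3 := (hv c).2
      simp only at h3
      linarith

/-- the criterion -/
theorem realize {d k : ℕ} (F : TreeVertex k → Fin d → ℤ) (hinj : Function.Injective F)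
    (hsep : ∀ e ∈ treeEdges k, ∀ z ∉ e,
      ∃ c : Fin d, (∀ a ∈ e, F z c < F a c) ∨ (∀ a ∈ e, F a c < F z c)) :
    Realizable d k := by
  have hb : ∀ e : Set (TreeVertex k), e ∈ treeEdges k → ∃ S : Set (Fin d → ℝ), IsBox S ∧
      ∀ v, v ∈ e ↔ (fun c => (F v c : ℝ)) ∈ S := fun e he =>
    box_of F e (edge_nonempty e he) (hsep e he)
  choose! B hB1 hB2 using hb
  have hG : Function.Injective fun (v : TreeVertex k) (c : Fin d) => (F v c : ℝ) := by
    intro v w h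
    apply hinj
    funext c
    have h2 : (F v c : ℝ) = F w c := congrFun h c
    exact_mod_cast h2
  refine ⟨Set.range fun (v : TreeVertex k) (c : Fin d) => (F v c : ℝ),
    {S | ∃ e ∈ treeEdges k, S = B e}, ?_, Equiv.ofInjective _ hG, ?_⟩
  · rintro S ⟨e, he, rfl⟩
    exact hB1 e he
  · have key : ∀ e ∈ treeEdges k, (Equiv.ofInjective _ hG) '' e =
        {p : Set.range fun (v : TreeVertex k) (c : Fin d) => (F v c : ℝ) |
          (p : Fin d → ℝ) ∈ B e} := by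
      intro e he
      ext p
      constructor
      · rintro ⟨v, hv, rfl⟩
        exact (hB2 e he v).1 hv
      · intro hp
        obtain ⟨v, hv⟩ := (Equiv.ofInjective _ hG).surjective p
        refine ⟨v, (hB2 e he v).2 ?_, hv⟩
        have : (p : Fin d → ℝ) ∈ B e := hp
        rw [← hv] at this
        exact this
    intro e
    constructor
    · intro he
      exact ⟨B e, ⟨e, he, rfl⟩, key e he⟩
    · rintro ⟨S, ⟨e', he', rfl⟩, h⟩
      rw [← key e' he'] at h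
      rw [(Set.image_injective.2 (Equiv.ofInjective _ hG).injective) h]
      exact he'

/-- what a realization gives -/
theorem box_closed {d k : ℕ} {P : Set (Fin d → ℝ)} {𝒮 : Set (Set (Fin d → ℝ))}
    (h𝒮 : ∀ S ∈ 𝒮, IsBox S) (f : TreeVertex k ≃ P)
    (hf : ∀ e : Set (TreeVertex k), e ∈ treeEdges k ↔ f '' e ∈ traces P 𝒮)
    (e : Set (TreeVertex k)) (he : e ∈ treeEdges k) (z : TreeVertex k)
    (h : ∀ c, (∃ a ∈ e, (f a : Fin d → ℝ) c ≤ (f z : Fin d → ℝ) c) ∧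
      (∃ a ∈ e, (f z : Fin d → ℝ) c ≤ (f a : Fin d → ℝ) c)) : z ∈ e := by
  obtain ⟨S, hS, h1⟩ := (hf e).1 he
  obtain ⟨a, b, hab, rfl⟩ := h𝒮 S hS
  have hmem : ∀ v ∈ e, ∀ i, a i < (f v : Fin d → ℝ) i ∧ (f v : Fin d → ℝ) i < b i := by
    intro v hv
    have : f v ∈ f '' e := ⟨v, hv, rfl⟩
    rw [h1] at this
    exact this
  have hz : f z ∈ f '' e := by
    rw [h1]
    intro i
    obtain ⟨⟨x, hx, hx1⟩, ⟨y, hy, hy1⟩⟩ := h i
    exact ⟨lt_of_lt_of_le (hmem x hx i).1 hx1, lt_of_le_of_lt hy1 (hmem y hy i).2⟩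
  obtain ⟨v, hv, hvz⟩ := hz
  rwa [f.injective hvz] at hv

/-- the line: not realizable for `k ≥ 2` -/
theorem not_line (k : ℕ) (hk : 2 ≤ k) : ¬ Realizable 1 k := by
  rintro ⟨P, 𝒮, h𝒮, f, hf⟩
  -- vertices
  let r : TreeVertex k := ⟨[], by show 0 < k; omega⟩
  let c : Fin k → TreeVertex k := fun i => ⟨[i], by show 1 < k; omega⟩
  let u : Fin k → TreeVertex k := fun i => ⟨List.replicate (k - 1) i, by
    rw [List.length_replicate]; omega⟩
  let x : TreeVertex k → ℝ := fun v => (f v : Fin 1 → ℝ) 0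
  have hcl : ∀ e ∈ treeEdges k, ∀ z a b : TreeVertex k, a ∈ e → b ∈ e → x a ≤ x z → x z ≤ x b →
      z ∈ e := by
    intro e he z a b ha hb h1 h2
    refine box_closed h𝒮 f hf e he z fun i => ?_
    have hi : i = 0 := Subsingleton.elim _ _
    subst hi
    exact ⟨⟨a, ha, h1⟩, ⟨b, hb, h2⟩⟩
  let i0 : Fin k := ⟨0, by omega⟩
  let i1 : Fin k := ⟨1, by omega⟩
  have h01 : i0 ≠ i1 := by
    intro h
    have := congrArg Fin.val h
    simp [i0, i1] at this
  -- the sibling edge of the root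
  have hE : childrenOf r ∈ treeEdges k := Or.inl ⟨r, by show 0 < k - 1; omega, rfl⟩
  have hcE : ∀ i, c i ∈ childrenOf r := fun i => ⟨i, rfl⟩
  have hrE : r ∉ childrenOf r := by
    rintro ⟨i, hi⟩
    have := congrArg List.length hi
    simp [r] at this
  -- paths
  have hPt : ∀ i, pathTo (u i) ∈ treeEdges k := fun i =>
    Or.inr ⟨u i, List.length_replicate, rfl⟩
  have hcP : ∀ i, c i ∈ pathTo (u i) := by
    intro i
    show [i] <+: List.replicate (k - 1) i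
    obtain ⟨m, hm⟩ : ∃ m, k - 1 = m + 1 := ⟨k - 2, by omega⟩
    rw [hm, List.replicate_succ]
    exact ⟨_, rfl⟩
  have hrP : ∀ i, r ∈ pathTo (u i) := fun i => List.nil_prefix
  have hnP : ∀ i j, i ≠ j → c j ∉ pathTo (u i) := by
    intro i j hij h
    have h2 : [j] <+: List.replicate (k - 1) i := h
    have h3 := h2.subset (List.mem_singleton.2 rfl)
    exact hij (List.eq_of_mem_replicate h3).symm
  have A1 : ∀ i j, i ≠ j → ¬ (x r ≤ x (c j) ∧ x (c j) ≤ x (c i)) := fun i j hij h =>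
    hnP i j hij (hcl _ (hPt i) _ r (c i) (hrP i) (hcP i) h.1 h.2)
  have A2 : ∀ i j, i ≠ j → ¬ (x (c i) ≤ x (c j) ∧ x (c j) ≤ x r) := fun i j hij h =>
    hnP i j hij (hcl _ (hPt i) _ (c i) r (hcP i) (hrP i) h.1 h.2)
  have A3 : ∀ i j, ¬ (x (c i) ≤ x r ∧ x r ≤ x (c j)) := fun i j h =>
    hrE (hcl _ hE _ (c i) (c j) (hcE i) (hcE j) h.1 h.2)
  have b1 := A1 i0 i1 h01
  have b2 := A1 i1 i0 h01.symm
  have b3 := A2 i0 i1 h01
  have b4 := A2 i1 i0 h01.symm
  have b5 := A3 i0 i1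
  have b6 := A3 i1 i0
  rcases le_total (x r) (x (c i0)) with h1 | h1 <;> rcases le_total (x r) (x (c i1)) with h2 | h2 <;>
    rcases le_total (x (c i0)) (x (c i1)) with h3 | h3
  · exact b2 ⟨h1, h3⟩
  · exact b1 ⟨h2, h3⟩
  · exact b6 ⟨h2, h1⟩
  · exact b6 ⟨h2, h1⟩
  · exact b5 ⟨h1, h2⟩
  · exact b5 ⟨h1, h2⟩
  · exact b3 ⟨h3, h2⟩
  · exact b4 ⟨h3, h1⟩

/-- the plane: not realizable for `k ≥ 6` (from the starting file) -/
theorem not_plane (k : ℕ) (hk : 6 ≤ k) : ¬ Realizable 2 k := by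
  rintro ⟨P, 𝒮, h𝒮, f, hf⟩
  apply result k hk
  let φ : (Fin 2 → ℝ) → ℝ × ℝ := fun x => (x 0, x 1)
  have hφ : Function.Injective φ := by
    intro x y h
    have h0 : x 0 = y 0 := congrArg Prod.fst h
    have h1 : x 1 = y 1 := congrArg Prod.snd h
    funext i
    fin_cases i
    · exact h0
    · exact h1
  refine ⟨φ '' P, {T | ∃ S ∈ 𝒮, T = φ '' S}, ?_, f.trans (Equiv.Set.image φ P hφ), ?_⟩
  · rintro T ⟨S, hS, rfl⟩
    obtain ⟨a, b, hab, rfl⟩ := h𝒮 S hS
    refine ⟨a 0, b 0, a 1, b 1, hab 0, hab 1, ?_⟩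
    ext ⟨p, q⟩
    constructor
    · rintro ⟨x, hx, he⟩
      have e1 : x 0 = p := congrArg Prod.fst he
      have e2 : x 1 = q := congrArg Prod.snd he
      have h0 := hx 0
      have h1 := hx 1
      rw [e1] at h0
      rw [e2] at h1
      exact ⟨⟨h0.1, h0.2⟩, ⟨h1.1, h1.2⟩⟩
    · rintro ⟨⟨h1, h2⟩, ⟨h3, h4⟩⟩
      refine ⟨![p, q], ?_, rfl⟩
      intro i
      fin_cases i
      · exact ⟨h1, h2⟩
      · exact ⟨h3, h4⟩
  · intro e
    rw [hf e]
    have key : ∀ (S : Set (Fin 2 → ℝ)), (f '' e = {p : P | (p : Fin 2 → ℝ) ∈ S} ↔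
        (f.trans (Equiv.Set.image φ P hφ)) '' e = {p : (φ '' P : Set (ℝ × ℝ)) |
          (p : ℝ × ℝ) ∈ φ '' S}) := by
      intro S
      have e1 : (f.trans (Equiv.Set.image φ P hφ)) '' e = (Equiv.Set.image φ P hφ) '' (f '' e) := by
        rw [← Set.image_comp]; rfl
      have e2 : {p : (φ '' P : Set (ℝ × ℝ)) | (p : ℝ × ℝ) ∈ φ '' S} =
          (Equiv.Set.image φ P hφ) '' {p : P | (p : Fin 2 → ℝ) ∈ S} := by
        ext p
        constructor
        · intro hp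
          obtain ⟨q, hq⟩ := (Equiv.Set.image φ P hφ).surjective p
          refine ⟨q, ?_, hq⟩
          have hp' : (p : ℝ × ℝ) ∈ φ '' S := hp
          rw [← hq] at hp'
          obtain ⟨s, hs, hse⟩ := hp'
          have : φ s = φ (q : Fin 2 → ℝ) := hse
          rw [hφ this] at hs
          exact hs
        · rintro ⟨q, hq, rfl⟩
          exact ⟨q, hq, rfl⟩
      rw [e1, e2]
      exact ⟨fun h => by rw [h], fun h =>
        Set.image_injective.2 (Equiv.Set.image φ P hφ).injective h⟩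
    constructor
    · rintro ⟨S, hS, h⟩
      exact ⟨φ '' S, ⟨S, hS, rfl⟩, (key S).1 h⟩
    · rintro ⟨T, ⟨S, hS, rfl⟩, h⟩
      exact ⟨S, hS, (key S).2 h⟩

/-- `k = 1` -/
theorem real_one (d : ℕ) : Realizable d 1 := by
  have hs : ∀ v w : TreeVertex 1, v = w := by
    intro v w
    have h1 : v.1.length < 1 := v.2
    have h2 : w.1.length < 1 := w.2
    apply Subtype.ext
    rw [List.length_eq_zero_iff.1 (by omega : v.1.length = 0),
      List.length_eq_zero_iff.1 (by omega : w.1.length = 0)]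
  refine realize (fun _ _ => 0) (fun v w _ => hs v w) ?_
  intro e he z hz
  obtain ⟨v, hv⟩ := edge_nonempty e he
  exact absurd (hs v z ▸ hv) hz

end Pool.Agent.Y668.TH
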