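import Mathlib
import Pool.Agent.Y668.TH.Basic

/-!
# Realizations in the plane for `k ≤ 5`
-/

set_option autoImplicit false

namespace Pool.Agent.Y668.TH

open Pool.Agent.Results.MP_a176d3_co.NotRealizable

variable {k : ℕ}

/-- the first coordinate -/
def PX : List (Fin k) → ℤ
  | [] => 0
  | [j] => ((j.val : ℤ) + 1) * 2000
  | [j, i] => ((5 - (j.val : ℤ)) * 6 + (i.val + 1)) * 6 - 2000
  | [j, i, l] => ((5 - (j.val : ℤ)) * 6 + (i.val + 1)) * 6 - (l.val + 1) - 2000
  | j :: i :: l :: m :: _ => ((j.val : ℤ) + 1) * 2000 + 2000 -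
      ((((5 - (j.val : ℤ)) * 6 + (i.val + 1)) * 6 - (l.val + 1)) * 6 + (m.val + 1))

/-- the second coordinate -/
def PY : List (Fin k) → ℤ
  | [] => 0
  | [j] => (5 - (j.val : ℤ)) * 6
  | [j, i] => (5 - (j.val : ℤ)) * 6 + (i.val + 1)
  | [j, i, l] => - ((((5 - (j.val : ℤ)) * 6 + (i.val + 1)) * 6 - (l.val + 1)) * 6)
  | j :: i :: l :: m :: _ =>
      - ((((5 - (j.val : ℤ)) * 6 + (i.val + 1)) * 6 - (l.val + 1)) * 6 + (m.val + 1))

theorem pref0 {P : List (Fin k) → Prop} :
    (∀ a, a <+: ([] : List (Fin k)) → P a) ↔ P [] := by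
  simp [List.prefix_nil]

theorem pref_cons {P : List (Fin k) → Prop} (j : Fin k) (u : List (Fin k)) :
    (∀ a, a <+: j :: u → P a) ↔ P [] ∧ ∀ a, a <+: u → P (j :: a) := by
  constructor
  · intro h
    exact ⟨h [] List.nil_prefix, fun a ha => h _ ((List.prefix_cons_inj j).2 ha)⟩
  · rintro ⟨h1, h2⟩ a ha
    rcases List.prefix_cons_iff.1 ha with rfl | ⟨t, rfl, ht⟩
    · exact h1
    · exact h2 t ht

/-- the four ways to separate -/
def Sep (z : List (Fin k)) (E : List (Fin k) → Prop) : Prop :=
  ((∀ a, E a → PX z < PX a) ∨ (∀ a, E a → PX a < PX z)) ∨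
  ((∀ a, E a → PY z < PY a) ∨ (∀ a, E a → PY a < PY z))

theorem path_sep (hk : k ≤ 5) (u z : List (Fin k)) (h4 : u.length ≤ 4)
    (hl : z.length ≤ u.length) (hn : ¬ z <+: u) : Sep z (fun a => a <+: u) := by
  unfold Sep
  rcases u with _ | ⟨j, _ | ⟨i, _ | ⟨l, _ | ⟨m, _ | ⟨n, u⟩⟩⟩⟩⟩ <;>
    rcases z with _ | ⟨j', _ | ⟨i', _ | ⟨l', _ | ⟨m', _ | ⟨n', z⟩⟩⟩⟩⟩
  all_goals try (exfalso; simp only [List.length_cons, List.length_nil] at h4 hl; omega)
  all_goals try (exact absurd List.nil_prefix hn)
  all_goals
    simp only [pref_cons, pref0]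
    simp only [List.cons_prefix_cons, List.nil_prefix, and_true, Fin.ext_iff] at hn
    simp only [PX, PY]
  all_goals
    have bj := j.2
    have bj' := j'.2
  -- `|u| = 1`
  · rcases lt_or_gt_of_ne hn with h | h
    · right; right; omega
    · left; right; omega
  all_goals have bi := i.2
  -- `|u| = 2`
  · rcases lt_or_gt_of_ne hn with h | h
    · right; right; omega
    · left; right; omega
  · have bi' := i'.2
    rcases lt_or_ge ((5 - (j.val : ℤ)) * 6 + (i.val + 1)) ((5 - (j'.val : ℤ)) * 6 + (i'.val + 1))
      with h | h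
    · right; right; omega
    · left; left; omega
  all_goals have bl := l.2
  · rcases lt_or_gt_of_ne hn with h | h
    · right; right; omega
    · left; right; omega
  · have bi' := i'.2
    rcases lt_or_ge ((5 - (j.val : ℤ)) * 6 + (i.val + 1)) ((5 - (j'.val : ℤ)) * 6 + (i'.val + 1))
      with h | h
    · right; right; omega
    · left; left; omega
  · have bi' := i'.2
    have bl' := l'.2
    rcases lt_or_ge (((5 - (j.val : ℤ)) * 6 + (i.val + 1)) * 6 - (l.val + 1))
      (((5 - (j'.val : ℤ)) * 6 + (i'.val + 1)) * 6 - (l'.val + 1)) with h | h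
    · right; left; omega
    · left; left; omega
  all_goals have bm := m.2
  · rcases lt_or_gt_of_ne hn with h | h
    · right; right; omega
    · left; right; omega
  · have bi' := i'.2
    rcases lt_or_ge ((5 - (j.val : ℤ)) * 6 + (i.val + 1)) ((5 - (j'.val : ℤ)) * 6 + (i'.val + 1))
      with h | h
    · right; right; omega
    · left; left; omega
  · have bi' := i'.2
    have bl' := l'.2
    rcases lt_or_ge (((5 - (j.val : ℤ)) * 6 + (i.val + 1)) * 6 - (l.val + 1))
      (((5 - (j'.val : ℤ)) * 6 + (i'.val + 1)) * 6 - (l'.val + 1)) with h | h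
    · right; left; omega
    · left; left; omega
  · have bi' := i'.2
    have bl' := l'.2
    have bm' := m'.2
    rcases lt_or_ge ((((5 - (j.val : ℤ)) * 6 + (i.val + 1)) * 6 - (l.val + 1)) * 6 + (m.val + 1))
      ((((5 - (j'.val : ℤ)) * 6 + (i'.val + 1)) * 6 - (l'.val + 1)) * 6 + (m'.val + 1)) with h | h
    · right; left; omega
    · left; right; omega

theorem sib_all {P : List (Fin k) → Prop} (v : List (Fin k)) :
    (∀ a, (∃ x, a = v ++ [x]) → P a) ↔ ∀ x, P (v ++ [x]) :=
  ⟨fun h x => h _ ⟨x, rfl⟩, by rintro h a ⟨x, rfl⟩; exact h x⟩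

theorem sib_sep (hk : k ≤ 5) (v z : List (Fin k)) (h3 : v.length ≤ 3) (hz : z.length ≤ 4)
    (hn : ¬ ∃ x, z = v ++ [x]) : Sep z (fun a => ∃ x, a = v ++ [x]) := by
  unfold Sep
  rcases v with _ | ⟨j, _ | ⟨i, _ | ⟨l, _ | ⟨m, v⟩⟩⟩⟩ <;>
    rcases z with _ | ⟨j', _ | ⟨i', _ | ⟨l', _ | ⟨m', _ | ⟨n', z⟩⟩⟩⟩⟩
  all_goals try (exfalso; simp only [List.length_cons, List.length_nil] at h3 hz; omega)
  all_goals simp only [sib_all]
  all_goals simp only [List.nil_append, List.cons_append]
  all_goals simp only [PX, PY]
  -- children of the root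
  · left; left; intro x; omega
  · exact absurd ⟨j', rfl⟩ hn
  · have := j'.2; have := i'.2
    left; left; intro x; omega
  · have := j'.2; have := i'.2; have := l'.2
    left; left; intro x; omega
  · have := j'.2; have := i'.2; have := l'.2; have := m'.2
    right; left; intro x; have := x.2; omega
  all_goals have bj := j.2
  -- children of `[j]`
  · left; right; intro x; have := x.2; omega
  · left; right; intro x; have := x.2; have := j'.2; omega
  · have := j'.2; have := i'.2
    have hne : j'.val ≠ j.val := by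
      intro h
      exact hn ⟨i', by rw [Fin.ext h]; rfl⟩
    rcases lt_or_gt_of_ne hne with h | h
    · right; right; intro x; have := x.2; omega
    · right; left; intro x; have := x.2; omega
  · have := j'.2; have := i'.2; have := l'.2
    right; left; intro x; have := x.2; omega
  · have := j'.2; have := i'.2; have := l'.2; have := m'.2
    right; left; intro x; have := x.2; omega
  all_goals have bi := i.2
  -- children of `[j, i]`
  · left; right; intro x; have := x.2; omega
  · left; right; intro x; have := x.2; have := j'.2; omega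
  · have := j'.2; have := i'.2
    right; right; intro x; have := x.2; omega
  · have := j'.2; have := i'.2; have := l'.2
    have hne : ¬ (j'.val = j.val ∧ i'.val = i.val) := by
      intro h
      exact hn ⟨l', by rw [Fin.ext h.1, Fin.ext h.2]; rfl⟩
    rcases lt_or_ge ((5 - (j.val : ℤ)) * 6 + (i.val + 1)) ((5 - (j'.val : ℤ)) * 6 + (i'.val + 1))
      with h | h
    · left; right; intro x; have := x.2; omega
    · left; left; intro x; have := x.2; omega
  · have := j'.2; have := i'.2; have := l'.2; have := m'.2
    left; right; intro x; have := x.2; omega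
  all_goals have bl := l.2
  -- children of `[j, i, l]`
  · right; right; intro x; have := x.2; omega
  · right; right; intro x; have := x.2; have := j'.2; omega
  · have := j'.2; have := i'.2
    right; right; intro x; have := x.2; omega
  · have := j'.2; have := i'.2; have := l'.2
    left; left; intro x; have := x.2; omega
  · have := j'.2; have := i'.2; have := l'.2; have := m'.2
    have hne : ¬ (j'.val = j.val ∧ i'.val = i.val ∧ l'.val = l.val) := by
      intro h
      exact hn ⟨m', by rw [Fin.ext h.1, Fin.ext h.2.1, Fin.ext h.2.2]; rfl⟩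
    rcases lt_or_ge (((5 - (j.val : ℤ)) * 6 + (i.val + 1)) * 6 - (l.val + 1))
      (((5 - (j'.val : ℤ)) * 6 + (i'.val + 1)) * 6 - (l'.val + 1)) with h | h
    · right; left; intro x; have := x.2; omega
    · right; right; intro x; have := x.2; omega

theorem PX_PY_inj (hk : k ≤ 5) (u z : List (Fin k)) (hu : u.length ≤ 4) (hz : z.length ≤ 4)
    (hX : PX u = PX z) (hY : PY u = PY z) : u = z := by
  by_contra hne
  rcases le_total z.length u.length with h | h
  · have hn : ¬ z <+: u ∨ (z <+: u ∧ z ≠ u) := by
      by_cases hp : z <+: u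
      · exact Or.inr ⟨hp, fun e => hne e.symm⟩
      · exact Or.inl hp
    rcases hn with hn | ⟨hp, _⟩
    · rcases path_sep hk u z hu h hn with (h1 | h1) | (h1 | h1) <;>
        have := h1 u (List.prefix_refl _) <;> omega
    · obtain ⟨t, rfl⟩ := hp
      rcases t.eq_nil_or_concat with rfl | ⟨t', x, rfl⟩
      · simp at hne
      · have h5 : ¬ ∃ y, z = (z ++ t') ++ [y] := by
          rintro ⟨y, hy⟩
          have := congrArg List.length hy
          simp only [List.length_append, List.length_cons, List.length_nil] at this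
          omega
        have h6 := sib_sep hk (z ++ t') z (by
          simp only [List.concat_eq_append, List.length_append, List.length_cons,
            List.length_nil] at hu
          rw [List.length_append]; omega) hz h5
        rcases h6 with (h1 | h1) | (h1 | h1) <;>
          have := h1 (z ++ (t'.concat x)) ⟨x, by simp⟩ <;> omega
  · have hn : ¬ u <+: z ∨ (u <+: z ∧ u ≠ z) := by
      by_cases hp : u <+: z
      · exact Or.inr ⟨hp, hne⟩
      · exact Or.inl hp
    rcases hn with hn | ⟨hp, _⟩
    · rcases path_sep hk z u hz h hn with (h1 | h1) | (h1 | h1) <;>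
        have := h1 z (List.prefix_refl _) <;> omega
    · obtain ⟨t, rfl⟩ := hp
      rcases t.eq_nil_or_concat with rfl | ⟨t', x, rfl⟩
      · simp at hne
      · have h5 : ¬ ∃ y, u = (u ++ t') ++ [y] := by
          rintro ⟨y, hy⟩
          have := congrArg List.length hy
          simp only [List.length_append, List.length_cons, List.length_nil] at this
          omega
        have h6 := sib_sep hk (u ++ t') u (by
          simp only [List.concat_eq_append, List.length_append, List.length_cons,
            List.length_nil] at hz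
          rw [List.length_append]; omega) hu h5
        rcases h6 with (h1 | h1) | (h1 | h1) <;>
          have := h1 (u ++ (t'.concat x)) ⟨x, by simp⟩ <;> omega

/-- the placement in the plane -/
def FQ (v : TreeVertex k) (c : Fin 2) : ℤ := if c = 0 then PX v.1 else PY v.1

theorem real_plane (k : ℕ) (hk : k ≤ 5) : Realizable 2 k := by
  have key : ∀ (e : Set (TreeVertex k)) (E : List (Fin k) → Prop) (z : TreeVertex k),
      (∀ a ∈ e, E a.1) → Sep z.1 E →
      ∃ c : Fin 2, (∀ a ∈ e, FQ z c < FQ a c) ∨ (∀ a ∈ e, FQ a c < FQ z c) := by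
    intro e E z hE hS
    rcases hS with (h | h) | (h | h)
    · exact ⟨0, Or.inl fun a ha => h _ (hE a ha)⟩
    · exact ⟨0, Or.inr fun a ha => h _ (hE a ha)⟩
    · exact ⟨1, Or.inl fun a ha => h _ (hE a ha)⟩
    · exact ⟨1, Or.inr fun a ha => h _ (hE a ha)⟩
  refine realize FQ ?_ ?_
  · intro v w h
    have h0 : PX v.1 = PX w.1 := congrFun h 0
    have h1 : PY v.1 = PY w.1 := congrFun h 1
    have hv : v.1.length < k := v.2
    have hw : w.1.length < k := w.2
    exact Subtype.ext (PX_PY_inj hk v.1 w.1 (by omega) (by omega) h0 h1)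
  · rintro e (⟨v, hv, rfl⟩ | ⟨v, hv, rfl⟩) z hz
    · have hzl : z.1.length < k := z.2
      exact key _ _ z (fun a ha => ha) (sib_sep hk v.1 z.1 (by omega) (by omega) hz)
    · have hzl : z.1.length < k := z.2
      exact key _ _ z (fun a ha => ha) (path_sep hk v.1 z.1 (by omega) (by omega) hz)

end Pool.Agent.Y668.TH
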