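import Mathlib
import Pool.Agent.Y668.TH.Basic

/-!
# Realizations in the space
-/

set_option autoImplicit false

namespace Pool.Agent.Y668.TH

open Pool.Agent.Results.MP_a176d3_co.NotRealizable

variable {k : ℕ}

/-- the number with the digits `g x`, `x ∈ l`, in base `k + 1`, with `n` digits -/
def val (g : Fin k → ℕ) : ℕ → List (Fin k) → ℕ
  | 0, _ => 0
  | _ + 1, [] => 0
  | n + 1, x :: s => g x * (k + 1) ^ n + val g n s

theorem val_nil (g : Fin k → ℕ) (n : ℕ) : val g n [] = 0 := by
  cases n <;> rfl

theorem val_lt (g : Fin k → ℕ) (hg : ∀ x, g x ≤ k) : ∀ (n : ℕ) (s : List (Fin k)),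
    val g n s < (k + 1) ^ n
  | 0, _ => by simp [val]
  | n + 1, [] => by simp [val]
  | n + 1, x :: s => by
    have ih := val_lt g hg n s
    have h1 : g x * (k + 1) ^ n ≤ k * (k + 1) ^ n := Nat.mul_le_mul_right _ (hg x)
    show g x * (k + 1) ^ n + val g n s < (k + 1) ^ (n + 1)
    rw [pow_succ]
    have h2 : (k + 1) ^ n * (k + 1) = k * (k + 1) ^ n + (k + 1) ^ n := by ring
    omega

theorem val_prefix (g : Fin k → ℕ) : ∀ (n : ℕ) (a u : List (Fin k)), a <+: u →
    val g n a ≤ val g n u
  | 0, _, _, _ => by simp [val]
  | n + 1, [], u, _ => by simp [val]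
  | n + 1, x :: a, u, h => by
    obtain ⟨t, rfl⟩ := h
    show g x * (k + 1) ^ n + val g n a ≤ g x * (k + 1) ^ n + val g n (a ++ t)
    have := val_prefix g n a (a ++ t) (List.prefix_append a t)
    omega

theorem val_first (g : Fin k → ℕ) (hg : ∀ x, g x ≤ k) : ∀ (n : ℕ) (p s t : List (Fin k))
    (x y : Fin k), p.length < n → g y < g x → val g n (p ++ y :: t) < val g n (p ++ x :: s)
  | 0, _, _, _, _, _, h, _ => by omega
  | n + 1, [], s, t, x, y, _, hxy => by
    show g y * (k + 1) ^ n + val g n t < g x * (k + 1) ^ n + val g n s
    have h1 := val_lt g hg n t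
    have h2 : (g y + 1) * (k + 1) ^ n ≤ g x * (k + 1) ^ n := Nat.mul_le_mul_right _ hxy
    have h3 : (g y + 1) * (k + 1) ^ n = g y * (k + 1) ^ n + (k + 1) ^ n := by ring
    omega
  | n + 1, z :: p, s, t, x, y, h, hxy => by
    show g z * (k + 1) ^ n + val g n (p ++ y :: t) < g z * (k + 1) ^ n + val g n (p ++ x :: s)
    have := val_first g hg n p s t x y (by simpa using h) hxy
    omega

/-- the first difference -/
theorem first_diff : ∀ (z u : List (Fin k)), z.length ≤ u.length → ¬ z <+: u →
    ∃ (p s t : List (Fin k)) (x y : Fin k), x ≠ y ∧ z = p ++ x :: s ∧ u = p ++ y :: t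
  | [], _, _, h => absurd List.nil_prefix h
  | x :: s, [], h, _ => by simp at h
  | x :: s, y :: t, h, hn => by
    by_cases hxy : x = y
    · subst hxy
      have hn' : ¬ s <+: t := fun hp => hn ((List.prefix_cons_inj x).2 hp)
      obtain ⟨p, s', t', a, b, hab, rfl, rfl⟩ := first_diff s t (by simpa using h) hn'
      exact ⟨x :: p, s', t', a, b, hab, rfl, rfl⟩
    · exact ⟨[], s, t, x, y, hxy, rfl, rfl⟩

/-- digits, increasing and decreasing -/
def gA (x : Fin k) : ℕ := x.val + 1

def gB (x : Fin k) : ℕ := k - x.val

theorem gA_le (x : Fin k) : gA x ≤ k := x.2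

theorem gB_le (x : Fin k) : gB x ≤ k := Nat.sub_le _ _

/-- the third coordinate -/
def cc (l : List (Fin k)) : ℕ := l.length * (k + 1) ^ k + val gA k l

theorem cc_level {l m : List (Fin k)} (h : l.length < m.length) : cc l < cc m := by
  unfold cc
  have h1 := val_lt gA gA_le k l
  have h2 : (l.length + 1) * (k + 1) ^ k ≤ m.length * (k + 1) ^ k := Nat.mul_le_mul_right _ h
  have h3 : (l.length + 1) * (k + 1) ^ k = l.length * (k + 1) ^ k + (k + 1) ^ k := by ring
  omega

/-- the placement in the space -/
def FF (d : ℕ) (v : TreeVertex k) (c : Fin d) : ℤ :=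
  if c.val = 0 then (val gA k v.1 : ℤ) else if c.val = 1 then (val gB k v.1 : ℤ)
    else if c.val = 2 then (cc v.1 : ℤ) else 0

theorem val_inj_len {l m : List (Fin k)} (hl : l.length = m.length) (hk : l.length < k)
    (h : val gA k l = val gA k m) : l = m := by
  by_contra hne
  have hn : ¬ l <+: m := fun hp => hne (hp.eq_of_length hl)
  obtain ⟨p, s, t, x, y, hxy, rfl, rfl⟩ := first_diff l m hl.le hn
  have hp : p.length < k := by
    simp only [List.length_append, List.length_cons] at hk
    omega
  rcases lt_or_gt_of_ne (fun e => hxy (Fin.ext e) : x.val ≠ y.val) with h1 | h1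
  · have := val_first gA gA_le k p t s y x hp (by unfold gA; omega)
    omega
  · have := val_first gA gA_le k p s t x y hp (by unfold gA; omega)
    omega

theorem real_space (d k : ℕ) (hd : 3 ≤ d) : Realizable d k := by
  have e0 : ∀ v : TreeVertex k, FF d v ⟨0, by omega⟩ = (val gA k v.1 : ℤ) := fun v => rfl
  have e1 : ∀ v : TreeVertex k, FF d v ⟨1, by omega⟩ = (val gB k v.1 : ℤ) := fun v => rfl
  have e2 : ∀ v : TreeVertex k, FF d v ⟨2, by omega⟩ = (cc v.1 : ℤ) := fun v => rfl
  refine realize (FF d) ?_ ?_
  · intro v w h
    have h0 : (val gA k v.1 : ℤ) = val gA k w.1 := congrFun h ⟨0, by omega⟩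
    have h2 : (cc v.1 : ℤ) = cc w.1 := congrFun h ⟨2, by omega⟩
    apply Subtype.ext
    have hl : v.1.length = w.1.length := by
      rcases lt_trichotomy v.1.length w.1.length with h3 | h3 | h3
      · have := cc_level h3; omega
      · exact h3
      · have := cc_level h3; omega
    exact val_inj_len hl v.2 (by exact_mod_cast h0)
  · rintro e (⟨v, hv, rfl⟩ | ⟨v, hv, rfl⟩) z hz
    · -- siblings
      refine ⟨⟨2, by omega⟩, ?_⟩
      rcases lt_trichotomy z.1.length (v.1.length + 1) with h1 | h1 | h1
      · left
        rintro a ⟨i, hi⟩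
        rw [e2, e2]
        exact_mod_cast cc_level (by rw [hi, List.length_append]; simpa using h1)
      · -- same level
        obtain ⟨z', j, hz'⟩ : ∃ z' j, z.1 = z' ++ [j] := by
          have hne : z.1 ≠ [] := by
            intro h
            rw [h] at h1
            simp at h1
          exact ⟨_, _, (List.dropLast_append_getLast hne).symm⟩
        have hlen : z'.length = v.1.length := by
          rw [hz', List.length_append] at h1
          simpa using h1
        have hne : z' ≠ v.1 := by
          intro h
          exact hz ⟨j, by rw [hz', h]⟩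
        have hn : ¬ z' <+: v.1 := fun hp => hne (hp.eq_of_length hlen)
        obtain ⟨p, s, t, x, y, hxy, e3, e4⟩ := first_diff z' v.1 hlen.le hn
        have hp : p.length < k := by
          have := v.2
          rw [e4, List.length_append, List.length_cons] at this
          omega
        rcases lt_or_gt_of_ne (fun e => hxy (Fin.ext e) : x.val ≠ y.val) with h2 | h2
        · left
          rintro a ⟨i, hi⟩
          rw [e2, e2]
          unfold cc
          have h3 := val_first gA gA_le k p (t ++ [i]) (s ++ [j]) y x hp (by unfold gA; omega)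
          have h4 : a.1.length = z.1.length := by
            rw [hi, hz', List.length_append, List.length_append, hlen]
            rfl
          rw [h4]
          rw [hi, hz', e3, e4]
          simp only [List.append_assoc, List.cons_append]
          have := Nat.add_lt_add_left h3 ((p ++ x :: (s ++ [j])).length * (k + 1) ^ k)
          exact_mod_cast this
        · right
          rintro a ⟨i, hi⟩
          rw [e2, e2]
          unfold cc
          have h3 := val_first gA gA_le k p (s ++ [j]) (t ++ [i]) x y hp (by unfold gA; omega)
          have h4 : a.1.length = z.1.length := by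
            rw [hi, hz', List.length_append, List.length_append, hlen]
            rfl
          rw [h4]
          rw [hi, hz', e3, e4]
          simp only [List.append_assoc, List.cons_append]
          have := Nat.add_lt_add_left h3 ((p ++ x :: (s ++ [j])).length * (k + 1) ^ k)
          exact_mod_cast this
      · right
        rintro a ⟨i, hi⟩
        rw [e2, e2]
        exact_mod_cast cc_level (by rw [hi, List.length_append]; simpa using h1)
    · -- paths
      have hlz : z.1.length ≤ v.1.length := by
        have h1 : z.1.length < k := z.2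
        omega
      obtain ⟨p, s, t, x, y, hxy, e3, e4⟩ := first_diff z.1 v.1 hlz hz
      have hp : p.length < k := by
        have := v.2
        rw [e4, List.length_append, List.length_cons] at this
        omega
      rcases lt_or_gt_of_ne (fun e => hxy (Fin.ext e) : x.val ≠ y.val) with h2 | h2
      · refine ⟨⟨1, by omega⟩, Or.inr fun a ha => ?_⟩
        rw [e1, e1]
        have h3 := val_first gB gB_le k p s t x y hp (by
          unfold gB
          have := y.2
          omega)
        rw [← e3, ← e4] at h3
        exact_mod_cast lt_of_le_of_lt (val_prefix gB k a.1 v.1 ha) h3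
      · refine ⟨⟨0, by omega⟩, Or.inr fun a ha => ?_⟩
        rw [e0, e0]
        have h3 := val_first gA gA_le k p s t x y hp (by unfold gA; omega)
        rw [← e3, ← e4] at h3
        exact_mod_cast lt_of_le_of_lt (val_prefix gA k a.1 v.1 ha) h3

end Pool.Agent.Y668.TH
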